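import Pool.Agent.H43.Chi.Sound

set_option autoImplicit false

namespace Pool.Agent.H43.Chi

def gx (v : Nat) : Nat := Nat.land (Nat.shiftRight TX (Nat.mul 8 v)) 255

def gy (v : Nat) : Nat := Nat.land (Nat.shiftRight TY (Nat.mul 8 v)) 255

def gz (v : Nat) : Nat := Nat.land (Nat.shiftRight TZ (Nat.mul 8 v)) 255

/-- `|a - b|`. -/
def ad (a b : Nat) : Nat := Nat.add (Nat.sub a b) (Nat.sub b a)

/-- The `ℓ₁`-distance of the points `v` and `w` is `8`. -/
def dist8 (v w : Nat) : Bool :=
  Nat.beq (Nat.add (Nat.add (ad (gx v) (gx w)) (ad (gy v) (gy w))) (ad (gz v) (gz w))) 8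

/-- Check one row of the table. -/
def rowOK (v fuel : Nat) : Nat → Nat → Bool :=
  Nat.rec (motive := fun _ => Nat → Nat → Bool) (fun _ _ => true)
    (fun _ ih m w =>
      Bool.rec (motive := fun _ => Bool) (ih (Nat.shiftRight m 1) (Nat.succ w))
        (Bool.rec (motive := fun _ => Bool) false (ih (Nat.shiftRight m 1) (Nat.succ w))
          (dist8 v w))
        (Nat.beq (Nat.land m 1) 1))
    fuel

theorem rowOK_sound (v : Nat) : ∀ (fuel m w : Nat), rowOK v fuel m w = true →
    ∀ j < fuel, m.testBit j = true → dist8 v (w + j) = true := by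
  intro fuel
  induction fuel with
  | zero => intro m w _ j hj; omega
  | succ n ih =>
    intro m w h j hj hb
    have h' : Bool.rec (motive := fun _ => Bool) (rowOK v n (Nat.shiftRight m 1) (Nat.succ w))
        (Bool.rec (motive := fun _ => Bool) false (rowOK v n (Nat.shiftRight m 1) (Nat.succ w))
          (dist8 v w))
        (Nat.beq (Nat.land m 1) 1) = true := h
    clear h
    have key : rowOK v n (Nat.shiftRight m 1) (Nat.succ w) = true := by
      cases h1 : Nat.beq (Nat.land m 1) 1
      · rw [h1] at h'
        exact h'
      · rw [h1] at h'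
        cases h2 : dist8 v w
        · rw [h2] at h'
          exact absurd h' (by simp)
        · rw [h2] at h'
          exact h'
    rcases j with _ | j
    · have h1 : Nat.beq (Nat.land m 1) 1 = true := by
        have : Nat.land m 1 = m % 2 := by
          have : Nat.land m 1 = m &&& 1 := rfl
          rw [this, Nat.and_one_is_mod]
        rw [this]
        rw [Nat.testBit_zero] at hb
        simp only [decide_eq_true_eq] at hb
        rw [hb]
        rfl
      rw [h1] at h'
      cases h2 : dist8 v w
      · rw [h2] at h'
        exact absurd h' (by simp)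
      · simpa using h2
    · have h3 := ih _ _ key j (by omega) (by
        have : Nat.shiftRight m 1 = m >>> 1 := rfl
        rw [this, Nat.testBit_shiftRight, Nat.add_comm]
        exact hb)
      have : Nat.succ w + j = w + (j + 1) := by omega
      rwa [this] at h3

/-- Check all rows. -/
def allOK (fuel : Nat) : Nat → Bool :=
  Nat.rec (motive := fun _ => Nat → Bool) (fun _ => true)
    (fun _ ih v => Bool.rec (motive := fun _ => Bool) false (ih (Nat.succ v))
      (rowOK v 512 (Nb v) 0)) fuel

theorem allOK_sound : ∀ (fuel v : Nat), allOK fuel v = true →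
    ∀ j < fuel, rowOK (v + j) 512 (Nb (v + j)) 0 = true := by
  intro fuel
  induction fuel with
  | zero => intro v _ j hj; omega
  | succ n ih =>
    intro v h j hj
    have h' : Bool.rec (motive := fun _ => Bool) false (allOK n (Nat.succ v))
      (rowOK v 512 (Nb v) 0) = true := h
    clear h
    cases h1 : rowOK v 512 (Nb v) 0
    · rw [h1] at h'
      exact absurd h' (by simp)
    · rw [h1] at h'
      rcases j with _ | j
      · exact h1
      · have := ih _ h' j (by omega)
        have e : Nat.succ v + j = v + (j + 1) := by omega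
        rwa [e] at this

theorem allOK_0 : allOK 128 0 = true := by decide +kernel

theorem allOK_1 : allOK 128 128 = true := by decide +kernel

theorem allOK_2 : allOK 128 256 = true := by decide +kernel

theorem allOK_3 : allOK 128 384 = true := by decide +kernel

/-- The row of `v` is correct. -/
structure Row (v : Nat) : Prop where
  ok : rowOK v 512 (Nb v) 0 = true

theorem allOK_row {fuel v : Nat} (h : allOK fuel v = true) (j : Nat) (hj : j < fuel) :
    Row (v + j) := ⟨allOK_sound fuel v h j hj⟩

theorem row {v : Nat} (hv : v < 512) : Row v := by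
  rcases Nat.lt_or_ge v 128 with h1 | h1
  · have h := allOK_row allOK_0 v h1
    rw [Nat.zero_add] at h
    exact h
  · rcases Nat.lt_or_ge v 256 with h2 | h2
    · have h := allOK_row allOK_1 (v - 128) (by omega)
      rw [Nat.add_sub_of_le h1] at h
      exact h
    · rcases Nat.lt_or_ge v 384 with h3 | h3
      · have h := allOK_row allOK_2 (v - 256) (by omega)
        rw [Nat.add_sub_of_le h2] at h
        exact h
      · have h := allOK_row allOK_3 (v - 384) (by omega)
        rw [Nat.add_sub_of_le h3] at h
        exact h

theorem adj_dist {v w : Nat} (hv : v < 512) (hw : w < 512) (h : (Nb v).testBit w = true) :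
    dist8 v w = true := by
  have h1 := rowOK_sound v 512 (Nb v) 0 (row hv).ok w hw h
  rw [Nat.zero_add] at h1
  exact h1

/-- The coordinates of the vertex `v`, as integers. -/
def cx (v : Nat) : ℤ := (gx v : ℤ) - 8

def cy (v : Nat) : ℤ := (gy v : ℤ) - 8

def cz (v : Nat) : ℤ := (gz v : ℤ) - 8

theorem dist8_int {v w : Nat} (h : dist8 v w = true) :
    |cx v - cx w| + |cy v - cy w| + |cz v - cz w| = 8 := by
  have h1 : ad (gx v) (gx w) + ad (gy v) (gy w) + ad (gz v) (gz w) = 8 :=
    Nat.eq_of_beq_eq_true h
  have had : ∀ a b : Nat, ((ad a b : Nat) : ℤ) = |((a : ℤ) - 8) - ((b : ℤ) - 8)| := by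
    intro a b
    have : ad a b = (a - b) + (b - a) := rfl
    rw [this]
    rcases le_total a b with hab | hab
    · rw [Nat.sub_eq_zero_of_le hab, abs_of_nonpos (by omega)]
      push_cast [Nat.cast_sub hab]
      ring
    · rw [Nat.sub_eq_zero_of_le hab, abs_of_nonneg (by omega)]
      push_cast [Nat.cast_sub hab]
      ring
  have h2 : ((ad (gx v) (gx w) : Nat) : ℤ) + (ad (gy v) (gy w) : Nat) + (ad (gz v) (gz w) : Nat)
      = 8 := by exact_mod_cast h1
  rw [had, had, had] at h2
  exact h2

end Pool.Agent.H43.Chi
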