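import Pool.Agent.H43.Chi.Adj
import Pool.Agent.H43.L1.Defs
import Pool.Agent.H43.Chi.PA0
import Pool.Agent.H43.Chi.PA1
import Pool.Agent.H43.Chi.PA2
import Pool.Agent.H43.Chi.PA3
import Pool.Agent.H43.Chi.PA4
import Pool.Agent.H43.Chi.PA5
import Pool.Agent.H43.Chi.PA6
import Pool.Agent.H43.Chi.PA7
import Pool.Agent.H43.Chi.PB0
import Pool.Agent.H43.Chi.PB1
import Pool.Agent.H43.Chi.PB2
import Pool.Agent.H43.Chi.PB3

set_option autoImplicit false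

namespace Pool.Agent.H43.Chi

open Pool.Agent.H43.L1

theorem beqSt_eq : ∀ s t : List (Nat × Nat × Nat), beqSt s t = true → s = t
  | [], [], _ => rfl
  | [], b :: t, h => by simp [beqSt] at h
  | a :: s, [], h => by simp [beqSt] at h
  | a :: s, b :: t, h => by
    simp only [beqSt, Bool.and_eq_true] at h
    obtain ⟨⟨⟨h1, h2⟩, h3⟩, h4⟩ := h
    have e1 := Nat.eq_of_beq_eq_true h1
    have e2 := Nat.eq_of_beq_eq_true h2
    have e3 := Nat.eq_of_beq_eq_true h3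
    rw [beqSt_eq s t h4]
    congr 1
    exact Prod.ext e1 (Prod.ext e2 e3)

theorem fin_bad {S' : Nat} {st' : List (Nat × Nat × Nat)} (h : BadC S' st') (S : Nat)
    (st : List (Nat × Nat × Nat)) (hb : (Nat.beq S S' && beqSt st st') = true) : BadC S st := by
  rw [Bool.and_eq_true] at hb
  rw [Nat.eq_of_beq_eq_true hb.1, beqSt_eq _ _ hb.2]
  exact h

theorem fin_false (S : Nat) (st : List (Nat × Nat × Nat)) (hb : false = true) : BadC S st :=
  absurd hb (by simp)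

theorem badA7 : BadC SA7 stA7 :=
  runL_sound _ fin_false LA7 SA7 stA7 partA7

theorem badA6 : BadC SA6 stA6 :=
  runL_sound _ (fin_bad badA7) LA6 SA6 stA6 partA6

theorem badA5 : BadC SA5 stA5 :=
  runL_sound _ (fin_bad badA6) LA5 SA5 stA5 partA5

theorem badA4 : BadC SA4 stA4 :=
  runL_sound _ (fin_bad badA5) LA4 SA4 stA4 partA4

theorem badA3 : BadC SA3 stA3 :=
  runL_sound _ (fin_bad badA4) LA3 SA3 stA3 partA3

theorem badA2 : BadC SA2 stA2 :=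
  runL_sound _ (fin_bad badA3) LA2 SA2 stA2 partA2

theorem badA1 : BadC SA1 stA1 :=
  runL_sound _ (fin_bad badA2) LA1 SA1 stA1 partA1

theorem badA0 : BadC SA0 stA0 :=
  runL_sound _ (fin_bad badA1) LA0 SA0 stA0 partA0

theorem badB3 : BadC SB3 stB3 :=
  runL_sound _ fin_false LB3 SB3 stB3 partB3

theorem badB2 : BadC SB2 stB2 :=
  runL_sound _ (fin_bad badB3) LB2 SB2 stB2 partB2

theorem badB1 : BadC SB1 stB1 :=
  runL_sound _ (fin_bad badB2) LB1 SB1 stB1 partB1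

theorem badB0 : BadC SB0 stB0 :=
  runL_sound _ (fin_bad badB1) LB0 SB0 stB0 partB0

/-- `n` ones in binary. -/
def ones (n : Nat) : Nat := Nat.sub (Nat.pow 2 n) 1

/-- All colours are possible. -/
def S0 : Nat := ones 4096

theorem ones_testBit (n i : Nat) (h : i < n) : (ones n).testBit i = true := by
  have : ones n = 2 ^ n - 1 := rfl
  rw [this, Nat.testBit_two_pow_sub_one]
  simpa using h

theorem cons0 {col : Nat → Nat} (hp : Proper col) : Cons S0 col := by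
  intro v hv
  have := hp.1 v
  unfold S0
  apply ones_testBit
  omega

theorem asg_cons' {col : Nat → Nat} (hp : Proper col) {S : Nat} (hS : Cons S col) (v c : Nat)
    (hv : v < 512) (hc : col v = c) : Cons (asg S v (Nat.pow 2 (Nat.mul 512 c))) col := by
  subst hc
  exact asg_cons hp hS hv

theorem initA : SA0 = asg (asg (asg (asg (asg (asg (asg S0
    84 (Nat.pow 2 (Nat.mul 512 0))) 19 (Nat.pow 2 (Nat.mul 512 1)))
    59 (Nat.pow 2 (Nat.mul 512 2))) 44 (Nat.pow 2 (Nat.mul 512 3)))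
    52 (Nat.pow 2 (Nat.mul 512 4))) 51 (Nat.pow 2 (Nat.mul 512 5)))
    0 (Nat.pow 2 (Nat.mul 512 0)) := by decide +kernel

theorem initB : SB0 = asg (asg (asg (asg (asg (asg (asg S0
    84 (Nat.pow 2 (Nat.mul 512 0))) 19 (Nat.pow 2 (Nat.mul 512 1)))
    59 (Nat.pow 2 (Nat.mul 512 2))) 44 (Nat.pow 2 (Nat.mul 512 3)))
    52 (Nat.pow 2 (Nat.mul 512 4))) 51 (Nat.pow 2 (Nat.mul 512 5)))
    0 (Nat.pow 2 (Nat.mul 512 6)) := by decide +kernel

theorem cons6 {col : Nat → Nat} (hp : Proper col) (h0 : col 84 = 0) (h1 : col 19 = 1)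
    (h2 : col 59 = 2) (h3 : col 44 = 3) (h4 : col 52 = 4) (h5 : col 51 = 5) (c : Nat)
    (hc : col 0 = c) :
    Cons (asg (asg (asg (asg (asg (asg (asg S0
    84 (Nat.pow 2 (Nat.mul 512 0))) 19 (Nat.pow 2 (Nat.mul 512 1)))
    59 (Nat.pow 2 (Nat.mul 512 2))) 44 (Nat.pow 2 (Nat.mul 512 3)))
    52 (Nat.pow 2 (Nat.mul 512 4))) 51 (Nat.pow 2 (Nat.mul 512 5)))
    0 (Nat.pow 2 (Nat.mul 512 c))) col :=
  asg_cons' hp (asg_cons' hp (asg_cons' hp (asg_cons' hp (asg_cons' hp (asg_cons' hp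
    (asg_cons' hp (cons0 hp) 84 0 (by norm_num) h0) 19 1 (by norm_num) h1) 59 2 (by norm_num) h2)
    44 3 (by norm_num) h3) 52 4 (by norm_num) h4) 51 5 (by norm_num) h5) 0 c (by norm_num) hc

/-- The coordinates of the seven special vertices. -/
theorem special :
    (gx 84 = 12 ∧ gy 84 = 8 ∧ gz 84 = 8) ∧ (gx 19 = 4 ∧ gy 19 = 8 ∧ gz 19 = 8) ∧
    (gx 59 = 8 ∧ gy 59 = 12 ∧ gz 59 = 8) ∧ (gx 44 = 8 ∧ gy 44 = 4 ∧ gz 44 = 8) ∧
    (gx 52 = 8 ∧ gy 52 = 8 ∧ gz 52 = 12) ∧ (gx 51 = 8 ∧ gy 51 = 8 ∧ gz 51 = 4) ∧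
    (gx 0 = 8 ∧ gy 0 = 8 ∧ gz 0 = 8) := by decide +kernel

/-- The colouring of the vertices defined by a colouring of `ℤ³`. -/
def vcol (c : ℤ → ℤ → ℤ → Fin 8) (s : Equiv.Perm (Fin 8)) (v : Nat) : Nat :=
  (s (c (cx v) (cy v) (cz v))).val

/-- A colouring of `ℤ³` in which points at `ℓ₁`-distance `8` get different colours. -/
def Prop8 (c : ℤ → ℤ → ℤ → Fin 8) : Prop :=
  ∀ x y z x' y' z' : ℤ, |x - x'| + |y - y'| + |z - z'| = 8 → c x y z ≠ c x' y' z'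

theorem vcol_proper {c : ℤ → ℤ → ℤ → Fin 8} (hc : Prop8 c) (s : Equiv.Perm (Fin 8)) :
    Proper (vcol c s) := by
  refine ⟨fun v => (s _).isLt, fun v hv w hw h heq => ?_⟩
  have h1 := dist8_int (adj_dist hv hw h)
  exact hc _ _ _ _ _ _ h1 (s.injective (Fin.ext heq))

theorem cz_eq (v a : Nat) (x : ℤ) (h : gz v = a) (hx : (a : ℤ) - 8 = x) : cz v = x := by
  unfold cz
  rw [h, hx]

theorem cy_eq (v a : Nat) (x : ℤ) (h : gy v = a) (hx : (a : ℤ) - 8 = x) : cy v = x := by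
  unfold cy
  rw [h, hx]

theorem cx_eq (v a : Nat) (x : ℤ) (h : gx v = a) (hx : (a : ℤ) - 8 = x) : cx v = x := by
  unfold cx
  rw [h, hx]

theorem vcol_eq {c : ℤ → ℤ → ℤ → Fin 8} {s : Equiv.Perm (Fin 8)} (v a1 a2 a3 : Nat)
    (x y z : ℤ) (h : gx v = a1 ∧ gy v = a2 ∧ gz v = a3) (h1 : (a1 : ℤ) - 8 = x)
    (h2 : (a2 : ℤ) - 8 = y) (h3 : (a3 : ℤ) - 8 = z) (k : Fin 8) (hk : s (c x y z) = k) :
    vcol c s v = k.val := by
  unfold vcol
  rw [cx_eq v a1 x h.1 h1, cy_eq v a2 y h.2.1 h2, cz_eq v a3 z h.2.2 h3, hk]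

/-- The six points of the clique. -/
def q (c : ℤ → ℤ → ℤ → Fin 8) : Fin 6 → Fin 8 :=
  ![c 4 0 0, c (-4) 0 0, c 0 4 0, c 0 (-4) 0, c 0 0 4, c 0 0 (-4)]

theorem q_inj {c : ℤ → ℤ → ℤ → Fin 8} (hc : Prop8 c) : Function.Injective (q c) := by
  have h01 : c 4 0 0 ≠ c (-4) 0 0 := hc _ _ _ _ _ _ (by norm_num)
  have h02 : c 4 0 0 ≠ c 0 4 0 := hc _ _ _ _ _ _ (by norm_num)
  have h03 : c 4 0 0 ≠ c 0 (-4) 0 := hc _ _ _ _ _ _ (by norm_num)
  have h04 : c 4 0 0 ≠ c 0 0 4 := hc _ _ _ _ _ _ (by norm_num)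
  have h05 : c 4 0 0 ≠ c 0 0 (-4) := hc _ _ _ _ _ _ (by norm_num)
  have h12 : c (-4) 0 0 ≠ c 0 4 0 := hc _ _ _ _ _ _ (by norm_num)
  have h13 : c (-4) 0 0 ≠ c 0 (-4) 0 := hc _ _ _ _ _ _ (by norm_num)
  have h14 : c (-4) 0 0 ≠ c 0 0 4 := hc _ _ _ _ _ _ (by norm_num)
  have h15 : c (-4) 0 0 ≠ c 0 0 (-4) := hc _ _ _ _ _ _ (by norm_num)
  have h23 : c 0 4 0 ≠ c 0 (-4) 0 := hc _ _ _ _ _ _ (by norm_num)
  have h24 : c 0 4 0 ≠ c 0 0 4 := hc _ _ _ _ _ _ (by norm_num)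
  have h25 : c 0 4 0 ≠ c 0 0 (-4) := hc _ _ _ _ _ _ (by norm_num)
  have h34 : c 0 (-4) 0 ≠ c 0 0 4 := hc _ _ _ _ _ _ (by norm_num)
  have h35 : c 0 (-4) 0 ≠ c 0 0 (-4) := hc _ _ _ _ _ _ (by norm_num)
  have h45 : c 0 0 4 ≠ c 0 0 (-4) := hc _ _ _ _ _ _ (by norm_num)
  intro i j hij
  by_contra hne
  fin_cases i <;> fin_cases j <;> simp_all [q]

theorem caseA {c : ℤ → ℤ → ℤ → Fin 8} (hc : Prop8 c) (h : c 0 0 0 = c 4 0 0) : False := by
  obtain ⟨s, hs⟩ := Equiv.Perm.exists_extending_pair (q c) (Fin.castLE (by norm_num : 6 ≤ 8))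
    (q_inj hc) (Fin.castLE_injective _)
  have k0 : s (c 4 0 0) = 0 := hs 0
  have k1 : s (c (-4) 0 0) = 1 := hs 1
  have k2 : s (c 0 4 0) = 2 := hs 2
  have k3 : s (c 0 (-4) 0) = 3 := hs 3
  have k4 : s (c 0 0 4) = 4 := hs 4
  have k5 : s (c 0 0 (-4)) = 5 := hs 5
  have k6 : s (c 0 0 0) = 0 := by rw [h, k0]
  have hp := vcol_proper hc s
  obtain ⟨g0, g1, g2, g3, g4, g5, g6⟩ := special
  have h0 := vcol_eq 84 12 8 8 4 0 0 g0 (by norm_num) (by norm_num) (by norm_num) 0 k0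
  have h1 := vcol_eq 19 4 8 8 (-4) 0 0 g1 (by norm_num) (by norm_num) (by norm_num) 1 k1
  have h2 := vcol_eq 59 8 12 8 0 4 0 g2 (by norm_num) (by norm_num) (by norm_num) 2 k2
  have h3 := vcol_eq 44 8 4 8 0 (-4) 0 g3 (by norm_num) (by norm_num) (by norm_num) 3 k3
  have h4 := vcol_eq 52 8 8 12 0 0 4 g4 (by norm_num) (by norm_num) (by norm_num) 4 k4
  have h5 := vcol_eq 51 8 8 4 0 0 (-4) g5 (by norm_num) (by norm_num) (by norm_num) 5 k5
  have h6 := vcol_eq 0 8 8 8 0 0 0 g6 (by norm_num) (by norm_num) (by norm_num) 0 k6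
  have hcons := cons6 hp h0 h1 h2 h3 h4 h5 0 h6
  rw [← initA] at hcons
  exact badA0.1 _ hp hcons

theorem caseB {c : ℤ → ℤ → ℤ → Fin 8} (hc : Prop8 c) (h : ∀ i, q c i ≠ c 0 0 0) : False := by
  obtain ⟨s, hs⟩ := Equiv.Perm.exists_extending_pair (Fin.snoc (α := fun _ => Fin 8) (q c) (c 0 0 0))
    (Fin.castLE (by norm_num : 7 ≤ 8))
    (by
      rw [Fin.snoc_injective_iff]
      refine ⟨q_inj hc, ?_⟩
      rintro ⟨i, hi⟩
      exact h i hi) (Fin.castLE_injective _)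
  have k0 : s (c 4 0 0) = 0 := hs 0
  have k1 : s (c (-4) 0 0) = 1 := hs 1
  have k2 : s (c 0 4 0) = 2 := hs 2
  have k3 : s (c 0 (-4) 0) = 3 := hs 3
  have k4 : s (c 0 0 4) = 4 := hs 4
  have k5 : s (c 0 0 (-4)) = 5 := hs 5
  have k6 : s (c 0 0 0) = 6 := hs 6
  have hp := vcol_proper hc s
  obtain ⟨g0, g1, g2, g3, g4, g5, g6⟩ := special
  have h0 := vcol_eq 84 12 8 8 4 0 0 g0 (by norm_num) (by norm_num) (by norm_num) 0 k0
  have h1 := vcol_eq 19 4 8 8 (-4) 0 0 g1 (by norm_num) (by norm_num) (by norm_num) 1 k1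
  have h2 := vcol_eq 59 8 12 8 0 4 0 g2 (by norm_num) (by norm_num) (by norm_num) 2 k2
  have h3 := vcol_eq 44 8 4 8 0 (-4) 0 g3 (by norm_num) (by norm_num) (by norm_num) 3 k3
  have h4 := vcol_eq 52 8 8 12 0 0 4 g4 (by norm_num) (by norm_num) (by norm_num) 4 k4
  have h5 := vcol_eq 51 8 8 4 0 0 (-4) g5 (by norm_num) (by norm_num) (by norm_num) 5 k5
  have h6 := vcol_eq 0 8 8 8 0 0 0 g6 (by norm_num) (by norm_num) (by norm_num) 6 k6
  have hcons := cons6 hp h0 h1 h2 h3 h4 h5 6 h6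
  rw [← initB] at hcons
  exact badB0.1 _ hp hcons

theorem no8 (c : ℤ → ℤ → ℤ → Fin 8) (hc : Prop8 c) : False := by
  by_cases h : ∀ i, q c i ≠ c 0 0 0
  · exact caseB hc h
  · push Not at h
    obtain ⟨i, hi⟩ := h
    have hneg : ∀ a b : ℤ, |-a - -b| = |a - b| := fun a b => by
      rw [← abs_neg]
      congr 1
      ring
    fin_cases i
    · exact caseA hc hi.symm
    · refine caseA (c := fun x y z => c (-x) y z) ?_ ?_
      · intro x y z x' y' z' hd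
        exact hc _ _ _ _ _ _ (by rw [hneg]; exact hd)
      · have hi' : c (-4) 0 0 = c 0 0 0 := hi
        simpa using hi'.symm
    · refine caseA (c := fun x y z => c y x z) ?_ ?_
      · intro x y z x' y' z' hd
        exact hc _ _ _ _ _ _ (by rw [← hd]; ring)
      · exact hi.symm
    · refine caseA (c := fun x y z => c y (-x) z) ?_ ?_
      · intro x y z x' y' z' hd
        exact hc _ _ _ _ _ _ (by rw [hneg, ← hd]; ring)
      · have hi' : c 0 (-4) 0 = c 0 0 0 := hi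
        simpa using hi'.symm
    · refine caseA (c := fun x y z => c z y x) ?_ ?_
      · intro x y z x' y' z' hd
        exact hc _ _ _ _ _ _ (by rw [← hd]; ring)
      · exact hi.symm
    · refine caseA (c := fun x y z => c z y (-x)) ?_ ?_
      · intro x y z x' y' z' hd
        exact hc _ _ _ _ _ _ (by rw [hneg, ← hd]; ring)
      · have hi' : c 0 0 (-4) = c 0 0 0 := hi
        simpa using hi'.symm

theorem not_colorable8 : ¬ (unitGraph 3).Colorable 8 := by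
  rintro ⟨C⟩
  refine no8 (fun x y z => C ![(x : ℝ) / 8, (y : ℝ) / 8, (z : ℝ) / 8]) ?_
  intro x y z x' y' z' hd
  apply C.valid
  show ∑ i, |_ - _| = 1
  rw [Fin.sum_univ_three]
  have h8 : ∀ a b : ℤ, |(a : ℝ) / 8 - (b : ℝ) / 8| = ((|a - b| : ℤ) : ℝ) / 8 := by
    intro a b
    rw [← sub_div, abs_div]
    push_cast
    norm_num
  simp only [Matrix.cons_val_zero, Matrix.cons_val_one, Matrix.cons_val]
  rw [h8, h8, h8, ← add_div, ← add_div, div_eq_one_iff_eq (by norm_num)]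
  exact_mod_cast hd

end Pool.Agent.H43.Chi
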