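import Pool.Agent.H43.Chi.Table

set_option autoImplicit false

namespace Pool.Agent.H43.Chi

/-- Neighbourhood of the vertex `v`, as a set of bits. -/
def Nb (v : Nat) : Nat :=
  Nat.land (Nat.shiftRight TN (Nat.mul 512 v)) (Nat.sub (Nat.pow 2 512) 1)

/-- Give to the vertex `v` the colour `c`, where `L = 2 ^ (512 c)`. -/
def asg (S v L : Nat) : Nat :=
  Nat.xor S (Nat.land S
    (Nat.lor (Nat.xor (Nat.shiftLeft E v) (Nat.shiftLeft L v)) (Nat.mul (Nb v) L)))

/-- Remove the lowest bit. -/
def low (X : Nat) : Nat := Nat.land X (Nat.sub X 1)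

/-- The set of the colours still possible for `v`. -/
def cols (S v : Nat) : Nat := Nat.land (Nat.shiftRight S v) E

/-- One chunk of the certificate. -/
def inner (k : Nat → List (Nat × Nat × Nat) → Bool) (fuel : Nat) :
    Nat → Nat → List (Nat × Nat × Nat) → Bool :=
  Nat.rec (motive := fun _ => Nat → Nat → List (Nat × Nat × Nat) → Bool)
    (fun _ S st => k S st)
    (fun _ ih ch S st =>
      (fun v : Nat => (fun X : Nat => (fun R : Nat =>
        Bool.rec (motive := fun _ => Bool)
          (Bool.rec (motive := fun _ => Bool)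
            (ih (Nat.shiftRight ch 9) (asg S v (Nat.xor X R)) ((S, v, R) :: st))
            (ih (Nat.shiftRight ch 9) (asg S v (Nat.xor X R)) st)
            (Nat.beq R 0))
          (List.rec (motive := fun _ => Bool) true
            (fun e st' _ =>
              (fun R' : Nat =>
                ih (Nat.shiftRight ch 9) (asg e.1 e.2.1 (Nat.xor e.2.2 R'))
                  (Bool.rec (motive := fun _ => List (Nat × Nat × Nat))
                    ((e.1, e.2.1, R') :: st') st' (Nat.beq R' 0)))
              (low e.2.2))
            st)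
          (Nat.beq X 0)) (low X)) (cols S v)) (Nat.land ch 511))
    fuel

/-- All chunks. -/
def runL (fin : Nat → List (Nat × Nat × Nat) → Bool) (L : List Nat) :
    Nat → List (Nat × Nat × Nat) → Bool :=
  List.rec (motive := fun _ => Nat → List (Nat × Nat × Nat) → Bool)
    fin
    (fun ch _ ih S st => inner ih 500 ch S st)
    L

/-- Boolean equality of stacks. -/
def beqSt : List (Nat × Nat × Nat) → List (Nat × Nat × Nat) → Bool
  | [], [] => true
  | a :: s, b :: t => Nat.beq a.1 b.1 && Nat.beq a.2.1 b.2.1 && Nat.beq a.2.2 b.2.2 && beqSt s t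
  | _, _ => false

end Pool.Agent.H43.Chi
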