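import Pool.Agent.H43.Chi.Run

set_option autoImplicit false

namespace Pool.Agent.H43.Chi

/-- All the colours given by `col` are still possible in the state `S`. -/
def Cons (S : Nat) (col : Nat → Nat) : Prop := ∀ v < 512, S.testBit (512 * col v + v) = true

/-- A proper colouring with the colours `0, …, 7`. -/
def Proper (col : Nat → Nat) : Prop :=
  (∀ v, col v < 8) ∧ ∀ v < 512, ∀ w < 512, (Nb v).testBit w = true → col v ≠ col w

def Bad (S : Nat) : Prop := ∀ col, Proper col → ¬ Cons S col

def BadE (e : Nat × Nat × Nat) : Prop :=
  ∀ col, Proper col → Cons e.1 col → e.2.1 < 512 → e.2.2.testBit (512 * col e.2.1) = true → False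

def BadC (S : Nat) (st : List (Nat × Nat × Nat)) : Prop := Bad S ∧ ∀ e ∈ st, BadE e

theorem E_eq : E = 2 ^ 0 ||| 2 ^ 512 ||| 2 ^ 1024 ||| 2 ^ 1536 ||| 2 ^ 2048 ||| 2 ^ 2560 |||
    2 ^ 3072 ||| 2 ^ 3584 := by decide +kernel

theorem E_true {c : Nat} (hc : c < 8) : E.testBit (512 * c) = true := by
  rw [E_eq]
  simp only [Nat.testBit_or, Nat.testBit_two_pow]
  interval_cases c <;> simp

theorem E_mod {j : Nat} (h : E.testBit j = true) : j % 512 = 0 := by
  rw [E_eq] at h
  simp only [Nat.testBit_or, Nat.testBit_two_pow, Bool.or_eq_true, decide_eq_true_eq] at h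
  omega

theorem land_lt (x n : Nat) : Nat.land x (Nat.sub (Nat.pow 2 n) 1) < 2 ^ n := by
  have : Nat.land x (Nat.sub (Nat.pow 2 n) 1) = x &&& (2 ^ n - 1) := rfl
  rw [this, Nat.and_two_pow_sub_one_eq_mod]
  exact Nat.mod_lt _ (by positivity)

theorem Nb_lt (v : Nat) : Nb v < 2 ^ 512 := land_lt _ _

theorem asg_cons {col : Nat → Nat} (hp : Proper col) {S v : Nat} (hS : Cons S col)
    (hv : v < 512) : Cons (asg S v (2 ^ (512 * col v))) col := by
  intro w hw
  have hS' := hS w hw
  have e : asg S v (2 ^ (512 * col v)) = S ^^^ (S &&&
    (((E <<< v) ^^^ (2 ^ (512 * col v) <<< v)) ||| (Nb v * 2 ^ (512 * col v)))) := rfl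
  rw [e, Nat.testBit_xor, Nat.testBit_and, hS', Nat.testBit_or, Nat.testBit_xor,
    ← Nat.shiftLeft_eq (Nb v)]
  simp only [Nat.testBit_shiftLeft, Nat.testBit_two_pow, Bool.true_and, Bool.true_bne,
    Bool.not_eq_true', Bool.or_eq_false_iff]
  have h1 : ∀ j, (Nb v).testBit j = true → j < 512 := by
    intro j hj
    by_contra hc
    push Not at hc
    have := Nat.testBit_lt_two_pow (x := Nb v) (i := j)
      (lt_of_lt_of_le (Nb_lt v) (Nat.pow_le_pow_right (by norm_num) hc))
    rw [this] at hj
    exact absurd hj (by simp)
  constructor
  · by_cases hwv : w = v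
    · subst hwv
      have h2 : 512 * col w + w - w = 512 * col w := by omega
      rw [h2, E_true (hp.1 w)]
      simp
    · have h2 : ∀ j, E.testBit j = true → j % 512 = 0 := fun j => E_mod
      have h3 : (decide (512 * col w + w ≥ v) && E.testBit (512 * col w + w - v)) = false := by
        rw [Bool.and_eq_false_iff]
        by_cases hge : 512 * col w + w ≥ v
        · right
          by_contra hc
          have := h2 _ (by simpa using hc)
          omega
        · left
          simpa using hge
      have h4 : (decide (512 * col w + w ≥ v) &&
          decide (512 * col v = 512 * col w + w - v)) = false := by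
        rw [Bool.and_eq_false_iff]
        by_cases hge : 512 * col w + w ≥ v
        · right
          simp only [decide_eq_false_iff_not]
          omega
        · left
          simpa using hge
      rw [h3, h4]
      rfl
  · rw [Bool.and_eq_false_iff]
    by_cases hge : 512 * col w + w ≥ 512 * col v
    · right
      by_contra hc
      have hc' : (Nb v).testBit (512 * col w + w - 512 * col v) = true := by simpa using hc
      have h5 := h1 _ hc'
      have h6 : col w = col v := by omega
      have h7 : 512 * col w + w - 512 * col v = w := by omega
      rw [h7] at hc'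
      exact hp.2 v hv w hw hc' h6.symm
    · left
      simpa using hge

/-- The lowest bit. -/
theorem low_pow : ∀ X : Nat, X ≠ 0 → ∃ k, X ^^^ low X = 2 ^ k := by
  intro X
  induction X using Nat.strong_induction_on with
  | _ X ih =>
    intro hX
    have hl : low X = X &&& (X - 1) := rfl
    rcases Nat.even_or_odd' X with ⟨m, hm | hm⟩
    · have hm0 : m ≠ 0 := by omega
      obtain ⟨k, hk⟩ := ih m (by omega) hm0
      refine ⟨k + 1, ?_⟩
      have hlm : low m = m &&& (m - 1) := rfl
      rw [hl, pow_succ]
      apply Nat.eq_of_testBit_eq
      intro i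
      rcases i with _ | i
      · have a1 : X.testBit 0 = false := by
          rw [Nat.testBit_zero]
          simp
          omega
        have a2 : (2 ^ k * 2).testBit 0 = false := by
          rw [Nat.testBit_zero]
          simp
        rw [a2, Nat.testBit_xor, Nat.testBit_and, a1]
        rfl
      · have h1 : X / 2 = m := by omega
        have h2 : (X - 1) / 2 = m - 1 := by omega
        rw [Nat.testBit_xor, Nat.testBit_and, Nat.testBit_succ, Nat.testBit_succ, h1, h2,
          Nat.testBit_succ, Nat.mul_div_cancel _ (by norm_num), ← hk, hlm, Nat.testBit_xor,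
          Nat.testBit_and]
    · refine ⟨0, ?_⟩
      rw [hl]
      apply Nat.eq_of_testBit_eq
      intro i
      rcases i with _ | i
      · have h1 : X.testBit 0 = true := by
          rw [Nat.testBit_zero]
          simp
          omega
        have h2 : (X - 1).testBit 0 = false := by
          rw [Nat.testBit_zero]
          simp
          omega
        rw [Nat.testBit_xor, Nat.testBit_and, h1, h2]
        rfl
      · have h1 : X / 2 = m := by omega
        have h2 : (X - 1) / 2 = m := by omega
        rw [Nat.testBit_xor, Nat.testBit_and, Nat.testBit_succ, Nat.testBit_succ, h1, h2,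
          Nat.testBit_succ]
        simp

theorem cols_bit {S v c : Nat} (hc : c < 8) :
    (cols S v).testBit (512 * c) = S.testBit (512 * c + v) := by
  have : cols S v = (S >>> v) &&& E := rfl
  rw [this, Nat.testBit_and, Nat.testBit_shiftRight, E_true hc, Bool.and_true, Nat.add_comm]

/-- The step at a vertex all of whose possible colours are in `X`. -/
theorem step_sound {col : Nat → Nat} (hp : Proper col) {S v X : Nat} (hv : v < 512)
    (hS : Cons S col) (hX : X.testBit (512 * col v) = true)
    (h1 : ¬ Cons (asg S v (X ^^^ low X)) col)
    (h2 : (low X).testBit (512 * col v) = true → False) : False := by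
  have hX0 : X ≠ 0 := by
    rintro rfl
    simp at hX
  obtain ⟨k, hk⟩ := low_pow X hX0
  have h3 : (X ^^^ low X).testBit (512 * col v) = true := by
    rw [Nat.testBit_xor, hX]
    cases h4 : (low X).testBit (512 * col v)
    · rfl
    · exact absurd h4 (fun h => h2 h)
  rw [hk, Nat.testBit_two_pow] at h3
  have h5 : k = 512 * col v := by simpa using h3
  rw [hk, h5] at h1
  exact h1 (asg_cons hp hS hv)

theorem inner_sound (k : Nat → List (Nat × Nat × Nat) → Bool)
    (hk : ∀ S st, k S st = true → BadC S st) :
    ∀ (fuel ch S : Nat) (st : List (Nat × Nat × Nat)),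
      inner k fuel ch S st = true → BadC S st := by
  intro fuel
  induction fuel with
  | zero => exact fun ch S st h => hk S st h
  | succ n ih =>
    intro ch S st h
    set v := Nat.land ch 511 with hvdef
    have hv : v < 512 := by
      have : v = ch &&& (2 ^ 9 - 1) := rfl
      rw [this, Nat.and_two_pow_sub_one_eq_mod]
      exact Nat.mod_lt _ (by norm_num)
    have h' : Bool.rec (motive := fun _ => Bool)
          (Bool.rec (motive := fun _ => Bool)
            (inner k n (Nat.shiftRight ch 9) (asg S v (cols S v ^^^ low (cols S v)))
              ((S, v, low (cols S v)) :: st))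
            (inner k n (Nat.shiftRight ch 9) (asg S v (cols S v ^^^ low (cols S v))) st)
            (Nat.beq (low (cols S v)) 0))
          (List.rec (motive := fun _ => Bool) true
            (fun e st' _ =>
                inner k n (Nat.shiftRight ch 9) (asg e.1 e.2.1 (e.2.2 ^^^ low e.2.2))
                  (Bool.rec (motive := fun _ => List (Nat × Nat × Nat))
                    ((e.1, e.2.1, low e.2.2) :: st') st' (Nat.beq (low e.2.2) 0)))
            st)
          (Nat.beq (cols S v) 0) = true := h
    clear h
    cases hX : Nat.beq (cols S v) 0
    · rw [hX] at h'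
      simp only at h'
      cases hR : Nat.beq (low (cols S v)) 0
      · rw [hR] at h'
        have h2 := ih _ _ _ h'
        refine ⟨?_, fun e he => h2.2 e (List.mem_cons_of_mem _ he)⟩
        intro col hp hS
        refine step_sound hp hv hS (X := cols S v) ?_ (h2.1 col hp) ?_
        · rw [cols_bit (hp.1 v)]
          exact hS v hv
        · intro h3
          exact h2.2 _ List.mem_cons_self col hp hS hv h3
      · rw [hR] at h'
        have h2 := ih _ _ _ h'
        refine ⟨?_, h2.2⟩
        intro col hp hS
        refine step_sound hp hv hS (X := cols S v) ?_ (h2.1 col hp) ?_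
        · rw [cols_bit (hp.1 v)]
          exact hS v hv
        · intro h3
          rw [Nat.eq_of_beq_eq_true hR] at h3
          simp at h3
    · have hX0 := Nat.eq_of_beq_eq_true hX
      rw [hX] at h'
      have hbad : Bad S := by
        intro col hp hS
        have := cols_bit (S := S) (v := v) (hp.1 v)
        rw [hX0, hS v hv] at this
        simp at this
      refine ⟨hbad, ?_⟩
      cases st with
      | nil => intro e he; simp at he
      | cons e st' =>
        simp only at h'
        have h2 := ih _ _ _ h'
        have hmem : ∀ e' ∈ st', BadE e' := by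
          intro e' he'
          apply h2.2
          cases Nat.beq (low e.2.2) 0
          · exact List.mem_cons_of_mem _ he'
          · exact he'
        intro e' he'
        rcases List.mem_cons.1 he' with rfl | he'
        · intro col hp hS hv' hbit
          refine step_sound hp hv' hS hbit (h2.1 col hp) ?_
          intro h3
          cases hR : Nat.beq (low e'.2.2) 0
          · rw [hR] at h2
            exact h2.2 _ List.mem_cons_self col hp hS hv' h3
          · rw [Nat.eq_of_beq_eq_true hR] at h3
            simp at h3
        · exact hmem e' he'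

theorem runL_sound (fin : Nat → List (Nat × Nat × Nat) → Bool)
    (hk : ∀ S st, fin S st = true → BadC S st) (L : List Nat) :
    ∀ (S : Nat) (st : List (Nat × Nat × Nat)), runL fin L S st = true → BadC S st := by
  induction L with
  | nil => exact fun S st h => hk S st h
  | cons ch L ih => exact fun S st h => inner_sound _ ih 500 ch S st h

end Pool.Agent.H43.Chi
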