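import Pool.Agent.H43.L1.Defs

set_option autoImplicit false

namespace Pool.Agent.H43.Chi

open Pool.Agent.H43.L1

/-- `z` moved a little in the direction `(1,1,1)` is in the open `ℓ₁`-ball of radius `2`. -/
def Good (z1 z2 z3 : ℝ) : Prop :=
  ∃ e0 : ℝ, 0 < e0 ∧ ∀ e : ℝ, 0 < e → e < e0 → |z1 + e| + |z2 + e| + |z3 + e| < 2

theorem good_of_lt {z1 z2 z3 : ℝ} (h : |z1| + |z2| + |z3| < 2) : Good z1 z2 z3 := by
  refine ⟨(2 - (|z1| + |z2| + |z3|)) / 3, by linarith, ?_⟩
  intro e he he'
  have h1 := abs_add_le z1 e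
  have h2 := abs_add_le z2 e
  have h3 := abs_add_le z3 e
  rw [abs_of_pos he] at h1 h2 h3
  linarith

/-- The integer of the parity of `w` in the half-open window around `X`. -/
theorem exists_near (X : ℝ) (w : ℤ) : ∃ u : ℤ, -1 ≤ X - (2 * u + w : ℤ) ∧
    X - (2 * u + w : ℤ) < 1 := by
  refine ⟨⌊(X - w + 1) / 2⌋, ?_, ?_⟩
  · have := Int.floor_le ((X - w + 1) / 2)
    push_cast
    linarith
  · have := Int.lt_floor_add_one ((X - w + 1) / 2)
    push_cast
    linarith

theorem exists_good (X Y Z : ℝ) : ∃ u v w : ℤ,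
    Good (X - (2 * u + w : ℤ)) (Y - (2 * v + w : ℤ)) (Z - (2 * w : ℤ)) := by
  set w := ⌊Z / 2⌋ with hw
  have ht0 : 0 ≤ Z - (2 * w : ℤ) := by
    have := Int.floor_le (Z / 2)
    push_cast
    linarith
  have ht2 : Z - (2 * w : ℤ) < 2 := by
    have := Int.lt_floor_add_one (Z / 2)
    push_cast
    linarith
  obtain ⟨u, hu1, hu2⟩ := exists_near X w
  obtain ⟨v, hv1, hv2⟩ := exists_near Y w
  set z1 := X - (2 * u + w : ℤ) with hz1
  set z2 := Y - (2 * v + w : ℤ) with hz2
  set t := Z - (2 * w : ℤ) with ht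
  -- the other layer
  have hx' : ∃ u' : ℤ, |X - (2 * u' + (w + 1) : ℤ)| = 1 - |z1| ∧
      (0 ≤ z1 → X - (2 * u' + (w + 1) : ℤ) < 0) := by
    rcases le_or_gt 0 z1 with h | h
    · refine ⟨u, ?_, ?_⟩
      · have e : X - (2 * u + (w + 1) : ℤ) = z1 - 1 := by
          rw [hz1]
          push_cast
          ring
        rw [e, abs_of_neg (by linarith), abs_of_nonneg h]
        ring
      · intro _
        have e : X - (2 * u + (w + 1) : ℤ) = z1 - 1 := by
          rw [hz1]
          push_cast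
          ring
        rw [e]
        linarith
    · refine ⟨u - 1, ?_, fun h' => absurd h' (not_le.2 h)⟩
      have e : X - (2 * (u - 1) + (w + 1) : ℤ) = z1 + 1 := by
        rw [hz1]
        push_cast
        ring
      rw [e, abs_of_nonneg (by linarith), abs_of_neg h]
      ring
  have hy' : ∃ v' : ℤ, |Y - (2 * v' + (w + 1) : ℤ)| = 1 - |z2| ∧
      (0 ≤ z2 → Y - (2 * v' + (w + 1) : ℤ) < 0) := by
    rcases le_or_gt 0 z2 with h | h
    · refine ⟨v, ?_, ?_⟩
      · have e : Y - (2 * v + (w + 1) : ℤ) = z2 - 1 := by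
          rw [hz2]
          push_cast
          ring
        rw [e, abs_of_neg (by linarith), abs_of_nonneg h]
        ring
      · intro _
        have e : Y - (2 * v + (w + 1) : ℤ) = z2 - 1 := by
          rw [hz2]
          push_cast
          ring
        rw [e]
        linarith
    · refine ⟨v - 1, ?_, fun h' => absurd h' (not_le.2 h)⟩
      have e : Y - (2 * (v - 1) + (w + 1) : ℤ) = z2 + 1 := by
        rw [hz2]
        push_cast
        ring
      rw [e, abs_of_nonneg (by linarith), abs_of_neg h]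
      ring
  obtain ⟨u', hu'1, hu'2⟩ := hx'
  obtain ⟨v', hv'1, hv'2⟩ := hy'
  have hZ' : Z - (2 * (w + 1) : ℤ) = t - 2 := by
    rw [ht]
    push_cast
    ring
  rcases lt_trichotomy (|z1| + |z2| + |t|) 2 with hs | hs | hs
  · exact ⟨u, v, w, good_of_lt hs⟩
  · -- tie
    by_cases hneg : z1 < 0 ∧ z2 < 0
    · refine ⟨u, v, w, min (-z1) (-z2), lt_min (by linarith [hneg.1]) (by linarith [hneg.2]), ?_⟩
      intro e he he'
      have h1 := lt_of_lt_of_le he' (min_le_left _ _)
      have h2 := lt_of_lt_of_le he' (min_le_right _ _)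
      rw [abs_of_neg (show z1 + e < 0 by linarith), abs_of_neg (show z2 + e < 0 by linarith),
        abs_of_nonneg (show 0 ≤ t + e by linarith)]
      rw [abs_of_neg hneg.1, abs_of_neg hneg.2, abs_of_nonneg ht0] at hs
      linarith
    · refine ⟨u', v', w + 1, ?_⟩
      rw [hZ']
      set a := X - (2 * u' + (w + 1) : ℤ) with ha
      set b := Y - (2 * v' + (w + 1) : ℤ) with hb
      rw [abs_of_nonneg ht0] at hs
      have hsum : |a| + |b| + (2 - t) = 2 := by linarith
      have hab : a < 0 ∨ b < 0 := by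
        by_contra hc
        push Not at hc
        apply hneg
        constructor
        · by_contra h
          push Not at h
          linarith [hu'2 h, hc.1]
        · by_contra h
          push Not at h
          linarith [hv'2 h, hc.2]
      rcases hab with h | h
      · refine ⟨min (-a) (2 - t), lt_min (by linarith) (by linarith), ?_⟩
        intro e he he'
        have h1 := lt_of_lt_of_le he' (min_le_left _ _)
        have h2 := lt_of_lt_of_le he' (min_le_right _ _)
        have h3 := abs_add_le b e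
        rw [abs_of_pos he] at h3
        rw [abs_of_neg (show a + e < 0 by linarith), abs_of_neg (show t - 2 + e < 0 by linarith)]
        rw [abs_of_neg h] at hsum
        linarith
      · refine ⟨min (-b) (2 - t), lt_min (by linarith) (by linarith), ?_⟩
        intro e he he'
        have h1 := lt_of_lt_of_le he' (min_le_left _ _)
        have h2 := lt_of_lt_of_le he' (min_le_right _ _)
        have h3 := abs_add_le a e
        rw [abs_of_pos he] at h3
        rw [abs_of_neg (show b + e < 0 by linarith), abs_of_neg (show t - 2 + e < 0 by linarith)]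
        rw [abs_of_neg h] at hsum
        linarith
  · refine ⟨u', v', w + 1, good_of_lt ?_⟩
    rw [hZ', abs_of_neg (show t - 2 < 0 by linarith)]
    rw [abs_of_nonneg ht0] at hs
    linarith

/-- The sublattice of index `12` has minimum `8`. -/
theorem min_norm (u v w : ℤ) (h1 : (6 : ℤ) ∣ u - v + 3 * w) (h2 : (2 : ℤ) ∣ v)
    (h : |2 * u + w| + |2 * v + w| + |2 * w| < 8) : u = 0 ∧ v = 0 ∧ w = 0 := by
  obtain ⟨a, ha⟩ := h1
  obtain ⟨b, hb⟩ := h2
  have h3 : |2 * w| < 8 := by linarith [abs_nonneg (2 * u + w), abs_nonneg (2 * v + w)]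
  rw [abs_lt] at h3
  have h4 : |2 * v + w| < 8 := by linarith [abs_nonneg (2 * u + w), abs_nonneg (2 * w)]
  rw [abs_lt] at h4
  have hw1 : -4 < w := by omega
  have hw2 : w < 4 := by omega
  have hb1 : -3 < b := by omega
  have hb2 : b < 3 := by omega
  subst hb
  rcases abs_cases (2 * u + w) with ⟨e1, _⟩ | ⟨e1, _⟩ <;>
  · rw [e1] at h
    interval_cases w <;> interval_cases b <;> norm_num [abs_of_nonneg, abs_of_neg] at h <;> omega

theorem colorable12 : (unitGraph 3).Colorable 12 := by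
  classical
  choose U V W hG using exists_good
  let col : (Fin 3 → ℝ) → ZMod 6 × ZMod 2 := fun x =>
    (((U (4 * x 0) (4 * x 1) (4 * x 2) - V (4 * x 0) (4 * x 1) (4 * x 2)
      + 3 * W (4 * x 0) (4 * x 1) (4 * x 2) : ℤ) : ZMod 6),
      ((V (4 * x 0) (4 * x 1) (4 * x 2) : ℤ) : ZMod 2))
  have hcol : ∀ x y : Fin 3 → ℝ, (unitGraph 3).Adj x y → col x ≠ col y := by
    intro x y hxy hc
    have hd : |x 0 - y 0| + |x 1 - y 1| + |x 2 - y 2| = 1 := by
      have : ∑ i, |x i - y i| = 1 := hxy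
      rwa [Fin.sum_univ_three] at this
    obtain ⟨e1, he1, hx⟩ := hG (4 * x 0) (4 * x 1) (4 * x 2)
    obtain ⟨e2, he2, hy⟩ := hG (4 * y 0) (4 * y 1) (4 * y 2)
    have hc1 := congrArg Prod.fst hc
    have hc2 := congrArg Prod.snd hc
    simp only [col] at hc1 hc2
    generalize U (4 * x 0) (4 * x 1) (4 * x 2) = u at *
    generalize V (4 * x 0) (4 * x 1) (4 * x 2) = v at *
    generalize W (4 * x 0) (4 * x 1) (4 * x 2) = w at *
    generalize U (4 * y 0) (4 * y 1) (4 * y 2) = u' at *
    generalize V (4 * y 0) (4 * y 1) (4 * y 2) = v' at *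
    generalize W (4 * y 0) (4 * y 1) (4 * y 2) = w' at *
    set e := min e1 e2 / 2 with he
    have hepos : 0 < e := by
      have := lt_min he1 he2
      linarith
    have hx' := hx e hepos (by have := min_le_left e1 e2; have := lt_min he1 he2; linarith)
    have hy' := hy e hepos (by have := min_le_right e1 e2; have := lt_min he1 he2; linarith)
    -- the difference of the two lattice points
    have hdiff : (|((2 * (u - u') + (w - w') : ℤ) : ℝ)| + |((2 * (v - v') + (w - w') : ℤ) : ℝ)|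
        + |((2 * (w - w') : ℤ) : ℝ)|) < 8 := by
      have t1 : ((2 * (u - u') + (w - w') : ℤ) : ℝ) = (4 * x 0 - 4 * y 0)
          - (4 * x 0 - ((2 * u + w : ℤ) : ℝ) + e) + (4 * y 0 - ((2 * u' + w' : ℤ) : ℝ) + e) := by
        push_cast
        ring
      have t2 : ((2 * (v - v') + (w - w') : ℤ) : ℝ) = (4 * x 1 - 4 * y 1)
          - (4 * x 1 - ((2 * v + w : ℤ) : ℝ) + e) + (4 * y 1 - ((2 * v' + w' : ℤ) : ℝ) + e) := by
        push_cast
        ring
      have t3 : ((2 * (w - w') : ℤ) : ℝ) = (4 * x 2 - 4 * y 2)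
          - (4 * x 2 - ((2 * w : ℤ) : ℝ) + e) + (4 * y 2 - ((2 * w' : ℤ) : ℝ) + e) := by
        push_cast
        ring
      have tri : ∀ p q r : ℝ, |p - q + r| ≤ |p| + |q| + |r| := by
        intro p q r
        have a1 := abs_add_le (p - q) r
        have a2 := abs_sub p q
        linarith
      have s4 : ∀ p q : ℝ, |4 * p - 4 * q| = 4 * |p - q| := by
        intro p q
        rw [← mul_sub, abs_mul]
        norm_num
      rw [t1, t2, t3]
      have b1 := tri (4 * x 0 - 4 * y 0) (4 * x 0 - ((2 * u + w : ℤ) : ℝ) + e)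
        (4 * y 0 - ((2 * u' + w' : ℤ) : ℝ) + e)
      have b2 := tri (4 * x 1 - 4 * y 1) (4 * x 1 - ((2 * v + w : ℤ) : ℝ) + e)
        (4 * y 1 - ((2 * v' + w' : ℤ) : ℝ) + e)
      have b3 := tri (4 * x 2 - 4 * y 2) (4 * x 2 - ((2 * w : ℤ) : ℝ) + e)
        (4 * y 2 - ((2 * w' : ℤ) : ℝ) + e)
      rw [s4] at b1 b2 b3
      linarith
    have hdiff' : |2 * (u - u') + (w - w')| + |2 * (v - v') + (w - w')| + |2 * (w - w')| < 8 := by
      exact_mod_cast hdiff
    have d1 : (6 : ℤ) ∣ (u - u') - (v - v') + 3 * (w - w') := by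
      have := (ZMod.intCast_eq_intCast_iff_dvd_sub _ _ 6).1 hc1
      have h' : (u - u') - (v - v') + 3 * (w - w')
          = -((u' - v' + 3 * w') - (u - v + 3 * w)) := by ring
      rw [h']
      exact (dvd_neg).2 (by exact_mod_cast this)
    have d2 : (2 : ℤ) ∣ v - v' := by
      have := (ZMod.intCast_eq_intCast_iff_dvd_sub _ _ 2).1 hc2
      have h' : v - v' = -(v' - v) := by ring
      rw [h']
      exact (dvd_neg).2 (by exact_mod_cast this)
    obtain ⟨z1, z2, z3⟩ := min_norm _ _ _ d1 d2 hdiff'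
    have eu : u = u' := by omega
    have ev : v = v' := by omega
    have ew : w = w' := by omega
    subst eu ev ew
    -- both points are in the same cell
    have tri : ∀ p q : ℝ, |p - q| ≤ |p| + |q| := fun p q => abs_sub p q
    have s4 : ∀ p q : ℝ, |4 * p - 4 * q| = 4 * |p - q| := by
      intro p q
      rw [← mul_sub, abs_mul]
      norm_num
    have b1 := tri (4 * x 0 - ((2 * u + w : ℤ) : ℝ) + e) (4 * y 0 - ((2 * u + w : ℤ) : ℝ) + e)
    have b2 := tri (4 * x 1 - ((2 * v + w : ℤ) : ℝ) + e) (4 * y 1 - ((2 * v + w : ℤ) : ℝ) + e)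
    have b3 := tri (4 * x 2 - ((2 * w : ℤ) : ℝ) + e) (4 * y 2 - ((2 * w : ℤ) : ℝ) + e)
    have c1 : 4 * x 0 - ((2 * u + w : ℤ) : ℝ) + e - (4 * y 0 - ((2 * u + w : ℤ) : ℝ) + e)
        = 4 * x 0 - 4 * y 0 := by ring
    have c2 : 4 * x 1 - ((2 * v + w : ℤ) : ℝ) + e - (4 * y 1 - ((2 * v + w : ℤ) : ℝ) + e)
        = 4 * x 1 - 4 * y 1 := by ring
    have c3 : 4 * x 2 - ((2 * w : ℤ) : ℝ) + e - (4 * y 2 - ((2 * w : ℤ) : ℝ) + e)
        = 4 * x 2 - 4 * y 2 := by ring
    rw [c1, s4] at b1
    rw [c2, s4] at b2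
    rw [c3, s4] at b3
    linarith
  have C : (unitGraph 3).Coloring (ZMod 6 × ZMod 2) :=
    SimpleGraph.Coloring.mk col (fun {x y} h => hcol x y h)
  have hC := C.colorable
  have : Fintype.card (ZMod 6 × ZMod 2) = 12 := by decide
  rwa [this] at hC

end Pool.Agent.H43.Chi
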